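import Mathlib
import Pool.Agent.MT.Cell

set_option autoImplicit false

/-!
# TSK / V: a residue class in which only the shifts from an admissible set can give primes
-/

namespace Pool.Agent.TSK

open Finset

/-- admissible sets of shifts -/
def Adm (S : Finset ℕ) : Prop := ∀ p : ℕ, p.Prime → ∃ a : ℕ, ∀ x ∈ S, ¬ p ∣ a + x

theorem Adm.subset {S S' : Finset ℕ} (h : Adm S) (hS : S' ⊆ S) : Adm S' := by
  intro p hp
  obtain ⟨a, ha⟩ := h p hp
  exact ⟨a, fun x hx => ha x (hS hx)⟩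

/-- the primes which are used for the shifts outside of the set -/
noncomputable def rho (B j : ℕ) : ℕ := Nat.nth Nat.Prime (B + 1 + j)

theorem rho_prime (B j : ℕ) : (rho B j).Prime := Nat.prime_nth_prime _

theorem rho_gt (B j : ℕ) : B < rho B j := by
  have := Nat.add_two_le_nth_prime (B + 1 + j)
  unfold rho
  omega

theorem rho_inj (B : ℕ) {i j : ℕ} (h : rho B i = rho B j) : i = j := by
  have := Nat.nth_injective Nat.infinite_setOfPred_prime h
  omega

theorem rho_mono (B : ℕ) {i j : ℕ} (h : i ≤ j) : rho B i ≤ rho B j := by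
  unfold rho
  exact Nat.nth_monotone Nat.infinite_setOfPred_prime (by omega)

theorem exists_v_tuple (S : Finset ℕ) (hS : Adm S) (B D : ℕ) (hB : ∀ x ∈ S, x ≤ B) :
    ∃ w v : ℕ, D ≤ w ∧ (∀ x ∈ S, (v + x).Coprime (primorial w)) ∧
      ∀ j ≤ B, j ∉ S → ∃ p : ℕ, p.Prime ∧ p ≤ w ∧ p ∣ v + j := by
  classical
  have h1 : ∀ p : ℕ, ∃ r : ℕ, p.Prime → (∀ x ∈ S, ¬ p ∣ r + x) ∧
      ∀ j ≤ B, j ∉ S → p = rho B j → p ∣ r + j := by
    intro p
    by_cases hp : p.Prime
    · by_cases h : ∃ j : ℕ, j ≤ B ∧ j ∉ S ∧ p = rho B j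
      · obtain ⟨j, hj1, hj2, hj3⟩ := h
        have hpB : B < p := by rw [hj3]; exact rho_gt B j
        have h2 : (p - 1) * j + j = p * j := by
          obtain ⟨q, hq⟩ : ∃ q, p = q + 1 := ⟨p - 1, by omega⟩
          rw [hq, Nat.add_sub_cancel]
          ring
        refine ⟨(p - 1) * j, fun _ => ⟨fun x hx hdvd => ?_, fun i hi1 hi2 hi3 => ?_⟩⟩
        · have h3 : ((p - 1) * j + x) ≡ ((p - 1) * j + j) [MOD p] := by
            rw [h2]
            exact ((Nat.modEq_zero_iff_dvd).2 hdvd).trans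
              ((Nat.modEq_zero_iff_dvd).2 (Dvd.intro j rfl)).symm
          have h4 : x ≡ j [MOD p] := Nat.ModEq.add_left_cancel' _ h3
          have h5 : x = j := by
            have h6 := hB x hx
            exact Nat.ModEq.eq_of_lt_of_lt h4 (by omega) (by omega)
          exact hj2 (h5 ▸ hx)
        · have h3 : i = j := rho_inj B (hi3.symm.trans hj3)
          rw [h3, h2]
          exact Dvd.intro j rfl
      · obtain ⟨a, ha⟩ := hS p hp
        exact ⟨a, fun _ => ⟨ha, fun j hj1 hj2 hj3 => absurd ⟨j, hj1, hj2, hj3⟩ h⟩⟩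
    · exact ⟨0, fun h => absurd h hp⟩
  choose r hr using h1
  obtain ⟨w, hw⟩ : ∃ w : ℕ, w = D + rho B B := ⟨_, rfl⟩
  obtain ⟨v, hv⟩ := Pool.Agent.MT.cell_crt ((range (w + 1)).filter Nat.Prime)
    (fun p hp => (mem_filter.1 hp).2) r
  refine ⟨w, v, by omega, fun x hx => ?_, fun j hj1 hj2 => ?_⟩
  · unfold primorial
    apply Nat.Coprime.prod_right
    intro p hp
    have hpp := (mem_filter.1 hp).2
    rw [Nat.coprime_comm, Nat.Prime.coprime_iff_not_dvd hpp]
    intro hdvd
    apply (hr p hpp).1 x hx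
    have h2 := hv p hp
    have h3 : (v + x) % p = 0 := Nat.mod_eq_zero_of_dvd hdvd
    apply Nat.dvd_of_mod_eq_zero
    rw [Nat.add_mod, ← h2, ← Nat.add_mod]
    exact h3
  · have hpp := rho_prime B j
    have hle : rho B j ≤ w := by
      have := rho_mono B hj1
      omega
    refine ⟨rho B j, hpp, hle, ?_⟩
    have h2 := hv (rho B j) (mem_filter.2 ⟨mem_range.2 (by omega), hpp⟩)
    have h3 := (hr (rho B j) hpp).2 j hj1 hj2 rfl
    have h4 : (r (rho B j) + j) % rho B j = 0 := Nat.mod_eq_zero_of_dvd h3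
    apply Nat.dvd_of_mod_eq_zero
    rw [Nat.add_mod, h2, ← Nat.add_mod]
    exact h4

end Pool.Agent.TSK
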