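import Mathlib
import Pool.Agent.MT.Maynard
import Pool.Agent.TSK.V

set_option autoImplicit false

/-!
# TSK / Cl: clusters of primes in an admissible set of shifts, with a lower bound for their number
-/

namespace Pool.Agent.TSK

open Finset Filter

/-- the first place of the cell `l` -/
def sK (K : ℕ → ℕ) (l : ℕ) : ℕ := ∑ i ∈ range l, K i

theorem sK_succ (K : ℕ → ℕ) (l : ℕ) : sK K (l + 1) = sK K l + K l := by
  unfold sK
  rw [Finset.sum_range_succ]

theorem sK_mono (K : ℕ → ℕ) {l l' : ℕ} (h : l ≤ l') : sK K l ≤ sK K l' := by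
  unfold sK
  exact Finset.sum_le_sum_of_subset (Finset.range_mono h)

/-- the cells: the elements of `S`, numbered by `f`, cut into blocks -/
def cell (K : ℕ → ℕ) (f : ℕ → ℕ) (l : ℕ) : Finset ℕ :=
  (Ico (sK K l) (sK K (l + 1))).image f

theorem exists_num (S : Finset ℕ) : ∃ f : ℕ → ℕ, (∀ i < S.card, f i ∈ S) ∧
    ∀ i < S.card, ∀ j < S.card, f i = f j → i = j := by
  classical
  refine ⟨fun i => if h : i < S.card then (S.orderEmbOfFin rfl ⟨i, h⟩ : ℕ) else 0, ?_, ?_⟩
  · intro i hi
    simp only [hi, dif_pos]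
    exact S.orderEmbOfFin_mem rfl _
  · intro i hi j hj hij
    simp only [hi, hj, dif_pos] at hij
    have := (S.orderEmbOfFin rfl).injective hij
    simpa using this

theorem cell_card {K : ℕ → ℕ} {f : ℕ → ℕ} {L : ℕ}
    (hf : ∀ i < sK K L, ∀ j < sK K L, f i = f j → i = j) {l : ℕ} (hl : l < L) :
    (cell K f l).card = K l := by
  unfold cell
  rw [Finset.card_image_of_injOn, Nat.card_Ico, sK_succ, Nat.add_sub_cancel_left]
  intro a ha b hb hab
  rw [Finset.coe_Ico, Set.mem_Ico] at ha hb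
  have h1 := sK_mono K (show l + 1 ≤ L by omega)
  exact hf a (by omega) b (by omega) hab

theorem cell_disj {K : ℕ → ℕ} {f : ℕ → ℕ} {L : ℕ}
    (hf : ∀ i < sK K L, ∀ j < sK K L, f i = f j → i = j) {l l' : ℕ} (hl : l < L) (hl' : l' < L)
    (h : l ≠ l') : Disjoint (cell K f l) (cell K f l') := by
  rw [Finset.disjoint_left]
  intro a ha hb
  unfold cell at ha hb
  obtain ⟨i, hi, rfl⟩ := Finset.mem_image.1 ha
  obtain ⟨j, hj, hij⟩ := Finset.mem_image.1 hb
  rw [mem_Ico] at hi hj
  have e1 := sK_mono K (show l + 1 ≤ L by omega)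
  have e2 := sK_mono K (show l' + 1 ≤ L by omega)
  have h1 : j = i := hf j (by omega) i (by omega) hij
  rcases Nat.lt_or_gt_of_ne h with h2 | h2
  · have := sK_mono K (show l + 1 ≤ l' by omega)
    omega
  · have := sK_mono K (show l' + 1 ≤ l by omega)
    omega

open Classical in
/-- **Clusters of primes in an admissible set of shifts**, all other shifts up to `B` giving
composite numbers. -/
theorem cluster (r : ℕ) : ∃ T : ℕ, ∀ H : Finset ℕ, T ≤ H.card → Adm H →
    ∀ B : ℕ, (∀ x ∈ H, x ≤ B) → ∃ C : ℕ, ∀ᶠ N : ℕ in atTop, ∃ R ⊆ H, r + 1 ≤ R.card ∧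
      (N : ℝ) / Real.log N ^ C ≤
        (((range (N + 1)).filter (fun a => ∀ j ≤ B, ((a + j).Prime ↔ j ∈ R))).card : ℝ) := by
  obtain ⟨K, δ, hδ, hK1, hmay⟩ := Pool.Agent.MT.maynard
  obtain ⟨L, hL⟩ : ∃ L : ℕ, ((r : ℝ) + 1) / δ ≤ L := exists_nat_ge _
  have hL' : (r : ℝ) + 1 ≤ δ * L := by
    rw [div_le_iff₀ hδ] at hL
    linarith
  have hr0 : (0 : ℝ) ≤ r := Nat.cast_nonneg r
  have hL0 : (0 : ℝ) < L := by
    by_contra hcon
    have : (L : ℝ) = 0 := le_antisymm (not_lt.1 hcon) (Nat.cast_nonneg L)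
    rw [this] at hL'
    linarith
  refine ⟨sK K L, fun H hH hAdm B hB => ?_⟩
  obtain ⟨S, hSH, hSc⟩ := Finset.exists_subset_card_eq hH
  obtain ⟨f, hf1, hf2⟩ := exists_num S
  rw [hSc] at hf1 hf2
  have hcellS : ∀ l < L, ∀ x ∈ cell K f l, x ∈ S := by
    intro l hl x hx
    unfold cell at hx
    obtain ⟨i, hi, rfl⟩ := Finset.mem_image.1 hx
    rw [mem_Ico] at hi
    have := sK_mono K (show l + 1 ≤ L by omega)
    exact hf1 i (by omega)
  obtain ⟨D₀, hD⟩ := hmay L (cell K f) (fun l hl => cell_card hf2 hl)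
    (fun l hl l' hl' h => cell_disj hf2 hl hl' h)
  obtain ⟨w, v, hw, hv, hcomp⟩ := exists_v_tuple S (hAdm.subset hSH) B D₀
    (fun x hx => hB x (hSH hx))
  obtain ⟨C, hC⟩ := hD w hw v (fun l hl x hx => hv x (hcellS l hl x hx))
  refine ⟨C + 1, ?_⟩
  have hlogT : Tendsto (fun X : ℕ => Real.log X) atTop atTop :=
    Real.tendsto_log_atTop.comp tendsto_natCast_atTop_atTop
  filter_upwards [hC, eventually_ge_atTop (8 * w + 8), eventually_ge_atTop 3,
    hlogT.eventually_ge_atTop ((L : ℝ) ^ 2 * 2 ^ S.card)] with N hN hNw hN3 hlog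
  obtain ⟨wt, hwt0, hwt1, hWpos, hcell, hsq⟩ := hN
  obtain ⟨W, hW⟩ : ∃ W : ℝ, W = ∑ a ∈ range (N + 1), wt a := ⟨_, rfl⟩
  rw [← hW] at hWpos hcell hsq
  have hN0 : (0 : ℝ) < N := by
    have : 0 < N := by omega
    exact_mod_cast this
  have hlogN : 0 < Real.log N := Real.log_pos (by
    have : 1 < N := by omega
    exact_mod_cast this)
  -- the number of cells with a prime
  obtain ⟨X, hX⟩ : ∃ X : ℕ → Finset ℕ, X = fun a =>
    (range L).filter (fun l => ∃ h ∈ cell K f l, (a + h).Prime) := ⟨_, rfl⟩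
  have h1 : δ * L * W ≤ ∑ a ∈ range (N + 1), wt a * ((X a).card : ℝ) := by
    calc δ * L * W = ∑ _l ∈ range L, δ * W := by
          rw [Finset.sum_const, Finset.card_range, nsmul_eq_mul]
          ring
      _ ≤ ∑ l ∈ range L, ∑ a ∈ (range (N + 1)).filter
          (fun a => ∃ h ∈ cell K f l, (a + h).Prime), wt a :=
          Finset.sum_le_sum fun l hl => by
            refine (hcell l (mem_range.1 hl)).trans (le_of_eq ?_)
            refine Finset.sum_congr ?_ fun _ _ => rfl
            ext a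
            simp only [mem_filter]
      _ = ∑ l ∈ range L, ∑ a ∈ range (N + 1),
          if (∃ h ∈ cell K f l, (a + h).Prime) then wt a else 0 := by
          apply Finset.sum_congr rfl
          intro l _
          rw [Finset.sum_filter]
      _ = ∑ a ∈ range (N + 1), ∑ l ∈ range L,
          if (∃ h ∈ cell K f l, (a + h).Prime) then wt a else 0 := Finset.sum_comm
      _ = _ := by
          apply Finset.sum_congr rfl
          intro a _
          rw [← Finset.sum_filter, Finset.sum_const, nsmul_eq_mul, hX]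
          ring
  obtain ⟨G, hG⟩ : ∃ G : Finset ℕ, G = (range (N + 1)).filter
    (fun a => wt a ≠ 0 ∧ r + 1 ≤ (X a).card) := ⟨_, rfl⟩
  have h2 : ∑ a ∈ range (N + 1), wt a * ((X a).card : ℝ) ≤ r * W + L * ∑ a ∈ G, wt a := by
    rw [hW, hG, Finset.sum_filter, Finset.mul_sum, Finset.mul_sum, ← Finset.sum_add_distrib]
    apply Finset.sum_le_sum
    intro a _
    have h3 : ((X a).card : ℝ) ≤ L := by
      have : (X a).card ≤ L := by
        rw [hX]
        refine (Finset.card_filter_le _ _).trans ?_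
        rw [Finset.card_range]
      exact_mod_cast this
    by_cases h4 : wt a ≠ 0 ∧ r + 1 ≤ (X a).card
    · rw [if_pos h4]
      have e1 := mul_le_mul_of_nonneg_left h3 (hwt0 a)
      have e2 := mul_nonneg hr0 (hwt0 a)
      linarith
    · rw [if_neg h4]
      by_cases h5 : wt a = 0
      · rw [h5]
        simp
      · have h6 : (X a).card ≤ r := by
          by_contra hcon
          exact h4 ⟨h5, by omega⟩
        have h7 : ((X a).card : ℝ) ≤ r := by exact_mod_cast h6
        have e1 := mul_le_mul_of_nonneg_left h7 (hwt0 a)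
        linarith
  have h3 : W ≤ L * ∑ a ∈ G, wt a := by nlinarith
  have h4 : (∑ a ∈ G, wt a) ^ 2 ≤ (G.card : ℝ) * ∑ a ∈ range (N + 1), wt a ^ 2 := by
    refine (sq_sum_le_card_mul_sum_sq).trans ?_
    apply mul_le_mul_of_nonneg_left _ (Nat.cast_nonneg _)
    apply Finset.sum_le_sum_of_subset_of_nonneg
    · rw [hG]
      exact Finset.filter_subset _ _
    · intro _ _ _
      positivity
  have h5 : (N : ℝ) ≤ L ^ 2 * Real.log N ^ C * G.card := by
    have e1 : W ^ 2 ≤ L ^ 2 * ((G.card : ℝ) * ∑ a ∈ range (N + 1), wt a ^ 2) := by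
      calc W ^ 2 ≤ (L * ∑ a ∈ G, wt a) ^ 2 := pow_le_pow_left₀ hWpos.le h3 2
        _ = L ^ 2 * (∑ a ∈ G, wt a) ^ 2 := by ring
        _ ≤ _ := mul_le_mul_of_nonneg_left h4 (by positivity)
    have e2 : W ^ 2 * N ≤ L ^ 2 * G.card * (Real.log N ^ C * W ^ 2) := by
      calc W ^ 2 * N ≤ L ^ 2 * ((G.card : ℝ) * ∑ a ∈ range (N + 1), wt a ^ 2) * N :=
            mul_le_mul_of_nonneg_right e1 hN0.le
        _ = L ^ 2 * G.card * ((∑ a ∈ range (N + 1), wt a ^ 2) * N) := by ring
        _ ≤ _ := mul_le_mul_of_nonneg_left hsq (by positivity)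
    have e3 : 0 < W ^ 2 := by positivity
    by_contra hcon
    have e4 := not_le.1 hcon
    have e5 := mul_lt_mul_of_pos_left e4 e3
    nlinarith
  -- the set of the shifts which give primes
  obtain ⟨Rf, hRf⟩ : ∃ Rf : ℕ → Finset ℕ, Rf = fun a => S.filter (fun x => (a + x).Prime) :=
    ⟨_, rfl⟩
  obtain ⟨Q, hQ⟩ : ∃ Q : Finset ℕ → Finset ℕ, Q = fun R => G.filter (fun a => Rf a = R) :=
    ⟨_, rfl⟩
  have h6 : G ⊆ S.powerset.biUnion Q := by
    intro a ha
    rw [Finset.mem_biUnion]
    refine ⟨Rf a, ?_, ?_⟩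
    · rw [Finset.mem_powerset, hRf]
      exact Finset.filter_subset _ _
    · rw [hQ]
      exact mem_filter.2 ⟨ha, rfl⟩
  have hGpos : (0 : ℝ) < G.card := by
    by_contra hcon2
    have e3 : (G.card : ℝ) = 0 := le_antisymm (not_lt.1 hcon2) (Nat.cast_nonneg _)
    rw [e3, mul_zero] at h5
    linarith
  have h7 : ∃ R ∈ S.powerset, (G.card : ℝ) / 2 ^ S.card ≤ ((Q R).card : ℝ) := by
    by_contra hcon
    push Not at hcon
    have e1 : (G.card : ℝ) ≤ ∑ R ∈ S.powerset, ((Q R).card : ℝ) := by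
      exact_mod_cast (Finset.card_le_card h6).trans Finset.card_biUnion_le
    have hne : S.powerset.Nonempty := ⟨∅, Finset.empty_mem_powerset S⟩
    have e3 := Finset.sum_lt_sum_of_nonempty hne hcon
    rw [Finset.sum_const, nsmul_eq_mul, Finset.card_powerset] at e3
    have e4 : ((2 ^ S.card : ℕ) : ℝ) * ((G.card : ℝ) / 2 ^ S.card) = G.card := by
      push_cast
      field_simp
    linarith
  obtain ⟨R, hRS, h8⟩ := h7
  rw [Finset.mem_powerset] at hRS
  have hQpos : 0 < (Q R).card := by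
    have : (0 : ℝ) < (Q R).card := lt_of_lt_of_le (by positivity) h8
    exact_mod_cast this
  have hRcard : r + 1 ≤ R.card := by
    obtain ⟨a, ha⟩ := Finset.card_pos.1 hQpos
    rw [hQ] at ha
    obtain ⟨haG, haR⟩ := mem_filter.1 ha
    rw [hG] at haG
    have e1 := (mem_filter.1 haG).2.2
    refine e1.trans ?_
    have e2 : ∀ l ∈ X a, ∃ h, h ∈ cell K f l ∧ (a + h).Prime := by
      intro l hl
      rw [hX] at hl
      obtain ⟨_, h, hh, hp⟩ := mem_filter.1 hl
      exact ⟨h, hh, hp⟩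
    choose! φ hφ using e2
    apply Finset.card_le_card_of_injOn φ
    · intro l hl
      have e3 := hφ l hl
      have e4 : l < L := by
        have : l ∈ X a := hl
        rw [hX] at this
        exact mem_range.1 (mem_filter.1 this).1
      rw [Finset.mem_coe, ← haR, hRf]
      exact mem_filter.2 ⟨hcellS l e4 _ e3.1, e3.2⟩
    · intro l hl l' hl' hll
      by_contra hne
      have e4 : ∀ l ∈ X a, l < L := by
        intro l hl
        rw [hX] at hl
        exact mem_range.1 (mem_filter.1 hl).1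
      have e5 := cell_disj hf2 (e4 l hl) (e4 l' hl') hne
      have e6 := (hφ l hl).1
      have e7 := (hφ l' hl').1
      rw [← hll] at e7
      exact (Finset.disjoint_left.1 e5) e6 e7
  refine ⟨R, hRS.trans hSH, hRcard, ?_⟩
  have h9 : ((Q R).card : ℝ) ≤
      (((range (N + 1)).filter (fun a => ∀ j ≤ B, ((a + j).Prime ↔ j ∈ R))).card : ℝ) := by
    norm_cast
    apply Finset.card_le_card
    intro a ha
    rw [hQ] at ha
    obtain ⟨haG, haR⟩ := mem_filter.1 ha
    rw [hG] at haG
    obtain ⟨e1, e2, _⟩ := mem_filter.1 haG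
    obtain ⟨e3, _, e4⟩ := hwt1 a e2
    refine mem_filter.2 ⟨e1, fun j hj => ?_⟩
    constructor
    · intro hp
      by_contra hjR
      by_cases hjS : j ∈ S
      · apply hjR
        rw [← haR, hRf]
        exact mem_filter.2 ⟨hjS, hp⟩
      · obtain ⟨p, hpp, hpw, hpd⟩ := hcomp j hj hjS
        have e5 : p ∣ primorial w := by
          unfold primorial
          exact Finset.dvd_prod_of_mem _ (mem_filter.2 ⟨mem_range.2 (by omega), hpp⟩)
        have e6 : a ≡ v [MOD p] := Nat.ModEq.of_dvd e5 e4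
        have e7 : p ∣ a + j := by
          have e8 : a + j ≡ v + j [MOD p] := e6.add_right j
          exact (e8.dvd_iff dvd_rfl).2 hpd
        have e8 := (Nat.prime_dvd_prime_iff_eq hpp hp).1 e7
        omega
    · intro hjR
      rw [← haR, hRf] at hjR
      exact (mem_filter.1 hjR).2
  refine le_trans ?_ (h8.trans h9)
  rw [le_div_iff₀ (by positivity), pow_succ, ← div_div]
  have e1 : (N : ℝ) / Real.log N ^ C ≤ L ^ 2 * G.card := by
    rw [div_le_iff₀ (by positivity)]
    linarith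
  calc (N : ℝ) / Real.log N ^ C / Real.log N * 2 ^ S.card
      ≤ L ^ 2 * G.card / Real.log N * 2 ^ S.card := by
        apply mul_le_mul_of_nonneg_right _ (by positivity)
        exact div_le_div_of_nonneg_right e1 hlogN.le
    _ = (L ^ 2 * 2 ^ S.card) / Real.log N * G.card := by ring
    _ ≤ 1 * G.card := by
        apply mul_le_mul_of_nonneg_right _ (by positivity)
        rw [div_le_one hlogN]
        exact hlog
    _ = G.card := one_mul _

end Pool.Agent.TSK
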